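import Mathlib

/-!
# Part (a): every interval of length `2u` around `u ^ 2` contains a point with `f = -1`

`f : ℕ → ℤ` is completely multiplicative on positive integers, `±1`-valued, `f 2 = -1`.
-/

namespace Pool.Agent.Work.MP_3a3367_nt

/-- `f` is completely multiplicative and `±1`-valued on the positive integers. -/
structure CMSign (f : ℕ → ℤ) : Prop where
  mul : ∀ a b, 1 ≤ a → 1 ≤ b → f (a * b) = f a * f b
  val : ∀ a, 1 ≤ a → f a = 1 ∨ f a = -1

variable {f : ℕ → ℤ}

lemma CMSign.sq (hf : CMSign f) {a : ℕ} (ha : 1 ≤ a) : f (a * a) = 1 := by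
  rw [hf.mul a a ha ha]
  rcases hf.val a ha with h | h <;> rw [h] <;> norm_num

/-- if `f (a*b) = 1` then `f a = f b`. -/
lemma CMSign.eq_of_mul (hf : CMSign f) {a b : ℕ} (ha : 1 ≤ a) (hb : 1 ≤ b)
    (h : f (a * b) = 1) : f a = f b := by
  rw [hf.mul a b ha hb] at h
  rcases hf.val a ha with h1 | h1 <;> rcases hf.val b hb with h2 | h2 <;>
    rw [h1, h2] at h ⊢ <;> norm_num at h

/-- The key descent. `L ≤ u² ≤ R`, `R - L ≥ 2u`, `f = 1` on `[L, R]` is impossible. -/
lemma descent (hf : CMSign f) (h2 : f 2 = -1) :
    ∀ u : ℕ, 1 ≤ u → ∀ L R : ℕ, 1 ≤ L → L ≤ u * u → u * u ≤ R → L + 2 * u ≤ R →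
      (∀ N, L ≤ N → N ≤ R → f N = 1) → False := by
  intro u
  induction u using Nat.strong_induction_on with
  | _ u ih =>
  intro hu L R hL hLu huR hLR hone
  -- relation from products in the window
  have rel : ∀ a b : ℕ, 1 ≤ a → 1 ≤ b → L ≤ a * b → a * b ≤ R → f a = f b := by
    intro a b ha hb h1 h2
    exact hf.eq_of_mul ha hb (hone _ h1 h2)
  rcases Nat.lt_or_ge u 3 with hu3 | hu3
  · -- u = 1 or 2
    interval_cases u
    · have hL1 : L = 1 := by omega
      have := hone 2 (by omega) (by omega)
      rw [h2] at this; norm_num at this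
    · rcases Nat.lt_or_ge 2 L with h | h
      · have h8 : 3 ≤ L ∧ L ≤ 4 := ⟨h, by omega⟩
        rcases Nat.lt_or_ge L 4 with h' | h'
        · have h3 := hone 3 (by omega) (by omega)
          have h6 := hone 6 (by omega) (by omega)
          have : f (2 * 3) = f 2 * f 3 := hf.mul 2 3 (by norm_num) (by norm_num)
          norm_num at this
          rw [h6, h2, h3] at this; norm_num at this
        · have h4 := hone 4 (by omega) (by omega)
          have h8' := hone 8 (by omega) (by omega)
          have : f (2 * 4) = f 2 * f 4 := hf.mul 2 4 (by norm_num) (by norm_num)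
          norm_num at this
          rw [h8', h2, h4] at this; norm_num at this
      · have := hone 2 h (by omega)
        rw [h2] at this; norm_num at this
  -- u ≥ 3
  -- the three kinds of relations; `x` is the smaller factor
  have R0 : ∀ c x : ℕ, 1 ≤ x → x + c = u → L + c * c ≤ u * u → f (u + c) = f x := by
    intro c x hx hxc hc
    have e : (u + c) * x + c * c = u * u := by subst hxc; ring
    exact rel _ _ (by omega) hx (by omega) (by omega)
  have R1 : ∀ c x : ℕ, 1 ≤ x → x + c = u + 1 → L + c * c ≤ u * u + u + c →
      u * u + u + c ≤ R + c * c → f (u + c) = f x := by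
    intro c x hx hxc hc hc'
    have e : (u + c) * x + c * c = u * u + u + c := by
      have : (x : ℤ) = u + 1 - c := by omega
      zify
      rw [this]; ring
    exact rel _ _ (by omega) hx (by omega) (by omega)
  have Rm : ∀ c x : ℕ, 1 ≤ x → x + c + 1 = u → L + u + c * c + c ≤ u * u → f (u + c) = f x := by
    intro c x hx hxc hc
    have e : (u + c) * x + u + c * c + c = u * u := by
      have : (x : ℤ) = u - 1 - c := by omega
      zify
      rw [this]; ring
    exact rel _ _ (by omega) hx (by omega) (by omega)
  have R2 : ∀ c x : ℕ, 1 ≤ x → x + c = u + 1 → L + c * c ≤ u * u + 2 * u + 1 →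
      u * u + 2 * u + 1 ≤ R + c * c → f (u + c + 1) = f x := by
    intro c x hx hxc hc hc'
    have e : (u + c + 1) * x + c * c = u * u + 2 * u + 1 := by
      have : (x : ℤ) = u + 1 - c := by omega
      zify
      rw [this]; ring
    exact rel _ _ (by omega) hx (by omega) (by omega)
  rcases Nat.lt_or_ge R (u * u + u) with hq | hq
  · -- case B : q < u
    obtain ⟨v, hv1, hv2⟩ : ∃ v, v * v ≤ u ∧ u < (v + 1) * (v + 1) :=
      ⟨Nat.sqrt u, Nat.sqrt_le u, Nat.lt_succ_sqrt u⟩
    have hv0 : 1 ≤ v := by
      by_contra h
      have : v = 0 := by omega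
      subst this; omega
    have hvu : v + 1 ≤ u := by
      by_contra h
      have : u ≤ v := by omega
      nlinarith
    -- one step of the chain
    have step : ∀ c : ℕ, c + 1 ≤ u - 1 → L + (c + 1) * (c + 1) ≤ u * u →
        L + c * c + c ≤ u * u + u → f (u + (c + 1)) = f (u + c) := by
      intro c hc h1 h3
      by_cases h : u * u + u ≤ R + c * (c + 1)
      · have e1 := R1 (c + 1) (u - c) (by omega) (by omega) (by nlinarith) (by nlinarith)
        have e2 := R0 c (u - c) (by omega) (by omega) (by nlinarith)
        rw [e1, e2]
      · have e1 := Rm c (u - 1 - c) (by omega) (by omega) (by nlinarith)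
        have e2 := R0 (c + 1) (u - 1 - c) (by omega) (by omega) h1
        rw [e1, e2]
    have chain : ∀ c : ℕ, c ≤ v → f (u + c) = f u := by
      intro c
      induction c with
      | zero => intro _; rfl
      | succ c ihc =>
        intro hc
        rw [step c (by omega) (by nlinarith) (by nlinarith)]
        exact ihc (by omega)
    have left : ∀ c : ℕ, c ≤ v → f (u - c) = f u := by
      intro c hc
      rw [← chain c hc]
      exact (R0 c (u - c) (by omega) (by omega) (by nlinarith)).symm
    rcases Nat.lt_or_ge (v * v + v) u with hB | hB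
    · -- B2
      set w := v + 1 with hw
      have hwu : w + 1 ≤ u := by nlinarith
      have cw : f (u + w) = f u ∧ f (u - w) = f u := by
        by_cases h : L + w * w ≤ u * u
        · have e1 : f (u + w) = f u := by
            rw [hw, step v (by omega) h (by nlinarith)]
            exact chain v le_rfl
          refine ⟨e1, ?_⟩
          rw [← e1]
          exact (R0 w (u - w) (by omega) (by omega) h).symm
        · have e1 : f (u + w) = f (u - v) :=
            R1 w (u - v) (by omega) (by omega) (by nlinarith) (by nlinarith)
          have e2 : f (u + (w + 1)) = f (u - w) :=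
            R1 (w + 1) (u - w) (by omega) (by omega) (by nlinarith) (by nlinarith)
          have e3 : f (u + w + 1) = f (u - v) :=
            R2 w (u - v) (by omega) (by omega) (by nlinarith) (by nlinarith)
          refine ⟨by rw [e1, left v le_rfl], ?_⟩
          rw [← e2, ← Nat.add_assoc, e3, left v le_rfl]
      have const : ∀ N, u - w ≤ N → N ≤ u + w → f N = f u := by
        intro N h1 h3
        rcases Nat.lt_or_ge N u with h | h
        · rcases Nat.eq_or_lt_of_le h1 with h4 | h4
          · rw [← h4]; exact cw.2
          · have := left (u - N) (by omega)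
            rwa [Nat.sub_sub_self h.le] at this
        · rcases Nat.eq_or_lt_of_le h3 with h4 | h4
          · rw [h4]; exact cw.1
          · have := chain (N - u) (by omega)
            rwa [Nat.add_sub_cancel' h] at this
      have hww : w * w ≤ u + w := by nlinarith
      have hww' : u - w ≤ w * w := by
        have : u < w * w := hv2
        omega
      have hfu : f u = 1 := by
        rw [← const (w * w) hww' hww]
        exact hf.sq (by omega)
      exact ih w (by omega) (by omega) (u - w) (u + w) (by omega) hww' hww (by omega)
        (fun N h1 h3 => by rw [const N h1 h3, hfu])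
    · -- B1
      have const : ∀ N, u - v ≤ N → N ≤ u + v → f N = f u := by
        intro N h1 h3
        rcases Nat.lt_or_ge N u with h | h
        · have := left (u - N) (by omega)
          rwa [Nat.sub_sub_self h.le] at this
        · have := chain (N - u) (by omega)
          rwa [Nat.add_sub_cancel' h] at this
      have hvv' : u - v ≤ v * v := by omega
      have hvv : v * v ≤ u + v := by omega
      have hfu : f u = 1 := by
        rw [← const (v * v) hvv' hvv]
        exact hf.sq (by omega)
      exact ih v (by omega) hv0 (u - v) (u + v) (by omega) hvv' hvv (by omega)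
        (fun N h1 h3 => by rw [const N h1 h3, hfu])
  · -- case A : q ≥ u
    obtain ⟨v, hv1, hv2⟩ : ∃ v, v * v ≤ u + v ∧ u < v * v + v := by
      rcases Nat.lt_or_ge u (Nat.sqrt u * Nat.sqrt u + Nat.sqrt u) with h | h
      · exact ⟨Nat.sqrt u, by have := Nat.sqrt_le u; omega, h⟩
      · refine ⟨Nat.sqrt u + 1, ?_, ?_⟩
        · nlinarith
        · have := Nat.lt_succ_sqrt u
          have h3 : u < (Nat.sqrt u + 1) * (Nat.sqrt u + 1) := this
          omega
    have hv0 : 2 ≤ v := by
      by_contra h
      have : v ≤ 1 := by omega
      nlinarith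
    have hvu : v + 1 ≤ u := by
      by_contra h
      have : u ≤ v := by omega
      nlinarith
    have chain : ∀ c : ℕ, c ≤ v → f (u + (c + 1)) = f (u + 1) := by
      intro c
      induction c with
      | zero => intro _; rfl
      | succ c ihc =>
        intro hc
        rw [← ihc (by omega)]
        set d := c + 1 with hd
        have hdv : d * d ≤ v * v := Nat.mul_le_mul hc hc
        by_cases h : L + d * d ≤ u * u
        · have e1 := R0 d (u - d) (by omega) (by omega) h
          have e2 := R1 (d + 1) (u - d) (by omega) (by omega) (by nlinarith) (by nlinarith)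
          rw [e1, e2]
        · have e1 := R1 d (u + 1 - d) (by omega) (by omega) (by
            have : d * d ≤ v * v + d - v + 0 ∨ True := Or.inr trivial
            have h5 : d * d + v ≤ v * v + d := by nlinarith
            omega) (by nlinarith)
          have e2 := R2 d (u + 1 - d) (by omega) (by omega) (by nlinarith) (by omega)
          rw [e1, ← Nat.add_assoc, e2]
    have left : ∀ c : ℕ, 1 ≤ c → c ≤ v → f (u + 1 - c) = f (u + 1) := by
      intro c hc1 hc
      have e := chain (c - 1) (by omega)
      rw [Nat.sub_add_cancel hc1] at e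
      rw [← e]
      have h5 : c * c + v ≤ v * v + c := by nlinarith
      exact (R1 c (u + 1 - c) (by omega) (by omega) (by omega) (by nlinarith)).symm
    have const : ∀ N, u + 1 - v ≤ N → N ≤ u + v + 1 → f N = f (u + 1) := by
      intro N h1 h3
      rcases Nat.lt_or_ge u N with h | h
      · have := chain (N - u - 1) (by omega)
        have e : u + (N - u - 1 + 1) = N := by omega
        rwa [e] at this
      · have := left (u + 1 - N) (by omega) (by omega)
        rwa [Nat.sub_sub_self (by omega)] at this
    have hvv' : u + 1 - v ≤ v * v := by omega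
    have hvv : v * v ≤ u + v + 1 := by omega
    have hfu : f (u + 1) = 1 := by
      rw [← const (v * v) hvv' hvv]
      exact hf.sq (by omega)
    exact ih v (by omega) (by omega) (u + 1 - v) (u + v + 1) (by omega) hvv' hvv (by omega)
      (fun N h1 h3 => by rw [const N h1 h3, hfu])

/-- Between two consecutive squares there is always a value `-1`. -/
theorem between_squares (hf : CMSign f) (h2 : f 2 = -1) (n : ℕ) (hn : 1 ≤ n) :
    ∃ N, n ^ 2 < N ∧ N < (n + 1) ^ 2 ∧ f N = -1 := by
  by_contra hcon
  push Not at hcon
  refine descent hf h2 n hn (n * n) ((n + 1) * (n + 1)) (Nat.mul_pos hn hn) le_rfl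
    (by nlinarith) (by nlinarith) ?_
  intro N h1 h3
  rcases Nat.eq_or_lt_of_le h1 with h4 | h4
  · rw [← h4]; exact hf.sq hn
  rcases Nat.eq_or_lt_of_le h3 with h5 | h5
  · rw [h5]; exact hf.sq (by omega)
  have hN : 1 ≤ N := by omega
  have := hcon N (by rw [sq]; exact h4) (by rw [sq]; exact h5)
  exact (hf.val N hN).resolve_right this

end Pool.Agent.Work.MP_3a3367_nt
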