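import Mathlib
import Pool.Agent.Work.MP_3a3367_nt.PartA

/-!
# Part (b), first half: finite difference quotients

`pp j`, `qq j : ℤ[X]` with `pp j / qq j = ∏ (X+i)^((-1)^i C(j+1,i))`.
-/

namespace Pool.Agent.Work.MP_3a3367_nt

open Polynomial Finset

/-- pair of polynomials `(pp j, qq j)`. -/
noncomputable def pq : ℕ → ℤ[X] × ℤ[X]
  | 0 => (X, X + 1)
  | j + 1 => ((pq j).1 * taylor 1 (pq j).2, (pq j).2 * taylor 1 (pq j).1)

lemma taylor_sub_natDegree (p : ℤ[X]) (d : ℕ) (h : p.natDegree ≤ d + 1) :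
    (taylor 1 p - p).natDegree ≤ d := by
  by_cases h0 : p.natDegree = 0
  · obtain ⟨c, hc⟩ := natDegree_eq_zero.mp h0
    rw [← hc, taylor_C, sub_self, natDegree_zero]; omega
  · have hp : p ≠ 0 := by
      rintro rfl; simp at h0
    have hlt : (taylor 1 p - p).degree < p.degree := by
      rw [← degree_taylor p 1]
      exact degree_sub_lt_left (by rw [degree_taylor]) (by
        rwa [Ne, taylor_eq_zero]) (by rw [leadingCoeff_taylor])
    by_cases h1 : taylor 1 p - p = 0
    · rw [h1, natDegree_zero]; omega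
    · have := natDegree_lt_natDegree h1 hlt
      omega

lemma two_pow_ge (j : ℕ) : j + 1 ≤ 2 ^ j := Nat.lt_two_pow_self

lemma pq_natDegree (j : ℕ) : (pq j).1.natDegree ≤ 2 ^ j ∧ (pq j).2.natDegree ≤ 2 ^ j ∧
    ((pq j).1 - (pq j).2).natDegree ≤ 2 ^ j - (j + 1) := by
  induction j with
  | zero =>
    refine ⟨?_, ?_, ?_⟩
    · simp [pq]
    · simp only [pq]
      compute_degree
      norm_num
    · have : (pq 0).1 - (pq 0).2 = C (-1) := by simp [pq]
      rw [this, natDegree_C]; omega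
  | succ j ih =>
    obtain ⟨h1, h2, h3⟩ := ih
    have e2 : 2 ^ (j + 1) = 2 ^ j + 2 ^ j := by ring
    have hj := two_pow_ge j
    refine ⟨?_, ?_, ?_⟩
    · simp only [pq]
      refine natDegree_mul_le.trans ?_
      rw [natDegree_taylor, e2]; omega
    · simp only [pq]
      refine natDegree_mul_le.trans ?_
      rw [natDegree_taylor, e2]; omega
    · have key : (pq (j + 1)).1 - (pq (j + 1)).2 =
          ((pq j).1 - (pq j).2) * (taylor 1 (pq j).2 - (pq j).2) -
          (pq j).2 * (taylor 1 ((pq j).1 - (pq j).2) - ((pq j).1 - (pq j).2)) := by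
        simp only [pq, map_sub]
        ring
      rw [key]
      refine (natDegree_sub_le _ _).trans (max_le ?_ ?_)
      · refine natDegree_mul_le.trans ?_
        have := taylor_sub_natDegree (pq j).2 (2 ^ j - 1) (by omega)
        omega
      · by_cases hd : 2 ^ j - (j + 1) = 0
        · have h0 : ((pq j).1 - (pq j).2).natDegree = 0 := by omega
          obtain ⟨c, hc⟩ := natDegree_eq_zero.mp h0
          rw [← hc, taylor_C, sub_self, mul_zero, natDegree_zero]
          omega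
        · refine natDegree_mul_le.trans ?_
          have := taylor_sub_natDegree ((pq j).1 - (pq j).2) (2 ^ j - (j + 1) - 1) (by omega)
          omega

/-- polynomial growth. -/
lemma eval_bound (p : ℤ[X]) (d : ℕ) (h : p.natDegree ≤ d) :
    ∃ C : ℝ, 0 ≤ C ∧ ∀ a : ℕ, 1 ≤ a → |((p.eval (a : ℤ) : ℤ) : ℝ)| ≤ C * (a : ℝ) ^ d := by
  refine ⟨∑ i ∈ range (p.natDegree + 1), |((p.coeff i : ℤ) : ℝ)|, by positivity, ?_⟩
  intro a ha
  have ha' : (1 : ℝ) ≤ a := by exact_mod_cast ha
  rw [eval_eq_sum_range]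
  push_cast
  refine (Finset.abs_sum_le_sum_abs _ _).trans ?_
  rw [Finset.sum_mul]
  refine Finset.sum_le_sum ?_
  intro i hi
  rw [abs_mul, abs_of_nonneg (by positivity : (0 : ℝ) ≤ (a : ℝ) ^ i)]
  refine mul_le_mul_of_nonneg_left ?_ (abs_nonneg _)
  exact pow_le_pow_right₀ ha' (by have := Finset.mem_range.mp hi; omega)

/-- factor sequences. -/
def gh : ℕ → ℕ → (ℕ → ℕ) × (ℕ → ℕ)
  | 0, a => (fun _ => a, fun _ => a + 1)
  | j + 1, a => (fun i => if i < 2 ^ j then (gh j a).1 i else (gh j (a + 1)).2 (i - 2 ^ j),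
      fun i => if i < 2 ^ j then (gh j a).2 i else (gh j (a + 1)).1 (i - 2 ^ j))

lemma gh_range (j : ℕ) : ∀ a i, a ≤ (gh j a).1 i ∧ (gh j a).1 i ≤ a + (j + 1) ∧
    a ≤ (gh j a).2 i ∧ (gh j a).2 i ≤ a + (j + 1) := by
  induction j with
  | zero => intro a i; simp [gh]
  | succ j ih =>
    intro a i
    simp only [gh]
    have h1 := ih a i
    have h2 := ih (a + 1) (i - 2 ^ j)
    split_ifs <;> omega

lemma gh_prod (j : ℕ) : ∀ a : ℕ,
    ((∏ i ∈ range (2 ^ j), (gh j a).1 i : ℕ) : ℤ) = (pq j).1.eval (a : ℤ) ∧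
    ((∏ i ∈ range (2 ^ j), (gh j a).2 i : ℕ) : ℤ) = (pq j).2.eval (a : ℤ) := by
  induction j with
  | zero => intro a; simp [gh, pq]
  | succ j ih =>
    intro a
    have e2 : 2 ^ (j + 1) = 2 ^ j + 2 ^ j := by ring
    have h1 := ih a
    have h2 := ih (a + 1)
    constructor
    · rw [e2, prod_range_add]
      have c1 : ∏ x ∈ range (2 ^ j), (gh (j + 1) a).1 x = ∏ x ∈ range (2 ^ j), (gh j a).1 x := by
        refine prod_congr rfl fun x hx => ?_
        simp only [gh, if_pos (mem_range.mp hx)]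
      have c2 : ∏ x ∈ range (2 ^ j), (gh (j + 1) a).1 (2 ^ j + x) =
          ∏ x ∈ range (2 ^ j), (gh j (a + 1)).2 x := by
        refine prod_congr rfl fun x hx => ?_
        simp only [gh]
        rw [if_neg (by omega), Nat.add_sub_cancel_left]
      rw [c1, c2]
      push_cast at h1 h2 ⊢
      rw [h1.1, h2.2]
      simp only [pq, eval_mul, taylor_eval]
    · rw [e2, prod_range_add]
      have c1 : ∏ x ∈ range (2 ^ j), (gh (j + 1) a).2 x = ∏ x ∈ range (2 ^ j), (gh j a).2 x := by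
        refine prod_congr rfl fun x hx => ?_
        simp only [gh, if_pos (mem_range.mp hx)]
      have c2 : ∏ x ∈ range (2 ^ j), (gh (j + 1) a).2 (2 ^ j + x) =
          ∏ x ∈ range (2 ^ j), (gh j (a + 1)).1 x := by
        refine prod_congr rfl fun x hx => ?_
        simp only [gh]
        rw [if_neg (by omega), Nat.add_sub_cancel_left]
      rw [c1, c2]
      push_cast at h1 h2 ⊢
      rw [h1.2, h2.1]
      simp only [pq, eval_mul, taylor_eval]

/-- The quotient is extremely close to `1`. -/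
lemma gh_close (j : ℕ) : ∃ C : ℝ, 0 ≤ C ∧ ∀ a : ℕ, 1 ≤ a →
    |(∏ i ∈ range (2 ^ j), (((gh j a).1 i : ℕ) : ℝ)) - ∏ i ∈ range (2 ^ j), (((gh j a).2 i : ℕ) : ℝ)| *
      (a : ℝ) ^ (j + 1) ≤ C * ∏ i ∈ range (2 ^ j), (((gh j a).2 i : ℕ) : ℝ) := by
  obtain ⟨C, hC, hb⟩ := eval_bound _ _ (pq_natDegree j).2.2
  refine ⟨C, hC, ?_⟩
  intro a ha
  have h := hb a ha
  rw [eval_sub, ← (gh_prod j a).1, ← (gh_prod j a).2] at h
  push_cast at h
  have hj := two_pow_ge j
  have ha' : (1 : ℝ) ≤ a := by exact_mod_cast ha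
  calc _ ≤ (C * (a : ℝ) ^ (2 ^ j - (j + 1))) * (a : ℝ) ^ (j + 1) :=
        mul_le_mul_of_nonneg_right h (by positivity)
    _ = C * (a : ℝ) ^ (2 ^ j) := by
        rw [mul_assoc, ← pow_add]
        congr 2; omega
    _ ≤ _ := by
        refine mul_le_mul_of_nonneg_left ?_ hC
        have : (a : ℝ) ^ (2 ^ j) = ∏ i ∈ range (2 ^ j), (a : ℝ) := by simp
        rw [this]
        refine Finset.prod_le_prod (fun _ _ => by positivity) ?_
        intro i _
        exact_mod_cast (gh_range j a i).2.2.1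

variable {f : ℕ → ℤ}

/-- the sign of the quotient. -/
def sg (f : ℕ → ℤ) : ℕ → ℕ → ℤ
  | 0, a => f a * f (a + 1)
  | j + 1, a => sg f j a * sg f j (a + 1)

lemma prod_sign (hf : CMSign f) (s : Finset ℕ) (g : ℕ → ℕ) (hg : ∀ i ∈ s, 1 ≤ g i) :
    f (∏ i ∈ s, g i) = ∏ i ∈ s, f (g i) ∧ 1 ≤ ∏ i ∈ s, g i := by
  induction s using Finset.induction_on with
  | empty =>
    simp only [prod_empty, le_refl, and_true]
    have := hf.mul 1 1 le_rfl le_rfl
    rcases hf.val 1 le_rfl with h | h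
    · exact h
    · rw [mul_one, h] at this; norm_num at this
  | insert i s hi ih =>
    have h1 := ih (fun k hk => hg k (mem_insert_of_mem hk))
    have h2 := hg i (mem_insert_self i s)
    rw [prod_insert hi, prod_insert hi]
    exact ⟨by rw [hf.mul _ _ h2 h1.2, h1.1], Nat.mul_pos h2 h1.2⟩

lemma gh_sign (hf : CMSign f) (j : ℕ) : ∀ a : ℕ, 1 ≤ a →
    (∏ i ∈ range (2 ^ j), f ((gh j a).1 i)) * (∏ i ∈ range (2 ^ j), f ((gh j a).2 i)) =
      sg f j a := by
  induction j with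
  | zero => intro a _; simp [gh, sg]
  | succ j ih =>
    intro a ha
    have e2 : 2 ^ (j + 1) = 2 ^ j + 2 ^ j := by ring
    rw [e2, prod_range_add, prod_range_add]
    have c1 : ∏ x ∈ range (2 ^ j), f ((gh (j + 1) a).1 x) =
        ∏ x ∈ range (2 ^ j), f ((gh j a).1 x) := by
      refine prod_congr rfl fun x hx => ?_
      simp only [gh, if_pos (mem_range.mp hx)]
    have c2 : ∏ x ∈ range (2 ^ j), f ((gh (j + 1) a).1 (2 ^ j + x)) =
        ∏ x ∈ range (2 ^ j), f ((gh j (a + 1)).2 x) := by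
      refine prod_congr rfl fun x hx => ?_
      simp only [gh]
      rw [if_neg (by omega), Nat.add_sub_cancel_left]
    have c3 : ∏ x ∈ range (2 ^ j), f ((gh (j + 1) a).2 x) =
        ∏ x ∈ range (2 ^ j), f ((gh j a).2 x) := by
      refine prod_congr rfl fun x hx => ?_
      simp only [gh, if_pos (mem_range.mp hx)]
    have c4 : ∏ x ∈ range (2 ^ j), f ((gh (j + 1) a).2 (2 ^ j + x)) =
        ∏ x ∈ range (2 ^ j), f ((gh j (a + 1)).1 x) := by
      refine prod_congr rfl fun x hx => ?_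
      simp only [gh]
      rw [if_neg (by omega), Nat.add_sub_cancel_left]
    rw [c1, c2, c3, c4, sg, ← ih a ha, ← ih (a + 1) (by omega)]
    ring

/-- the operator `g ↦ g(a) g(a+1)`. -/
def opE (g : ℕ → ℤ) : ℕ → ℤ := fun a => g a * g (a + 1)

lemma sg_eq (f : ℕ → ℤ) (j : ℕ) : sg f j = opE^[j + 1] f := by
  induction j with
  | zero => rfl
  | succ j ih =>
    rw [Function.iterate_succ_apply', ← ih]
    rfl

lemma opE_pow (s : ℕ) : ∀ g : ℕ → ℤ, (∀ a, 1 ≤ a → g a = 1 ∨ g a = -1) →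
    ∀ a, 1 ≤ a → (opE^[2 ^ s] g) a = g a * g (a + 2 ^ s) := by
  induction s with
  | zero => intro g _ a _; simp [opE]
  | succ s ih =>
    intro g hg a ha
    have e2 : 2 ^ (s + 1) = 2 ^ s + 2 ^ s := by ring
    rw [e2, Function.iterate_add_apply]
    have hg' : ∀ a, 1 ≤ a → (opE^[2 ^ s] g) a = 1 ∨ (opE^[2 ^ s] g) a = -1 := by
      intro b hb
      rw [ih g hg b hb]
      rcases hg b hb with h | h <;> rcases hg (b + 2 ^ s) (le_trans hb (Nat.le_add_right _ _)) with h' | h' <;>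
        rw [h, h'] <;> norm_num
    rw [ih _ hg' a ha, ih g hg a ha, ih g hg (a + 2 ^ s) (le_trans ha (Nat.le_add_right _ _))]
    rw [← Nat.add_assoc]
    rcases hg (a + 2 ^ s) (le_trans ha (Nat.le_add_right _ _)) with h | h <;> rw [h] <;> ring

end Pool.Agent.Work.MP_3a3367_nt
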