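import Mathlib
import Pool.Agent.Work.MP_3a3367_nt.PartB

/-!
# Part (b), second half: many sign changes
-/

namespace Pool.Agent.Work.MP_3a3367_nt

open Finset

variable {f : ℕ → ℤ}

/-- `f` is constant on integers within `R` of `y`. -/
def Good (f : ℕ → ℤ) (R y : ℝ) : Prop :=
  ∀ n n' : ℕ, |(n : ℝ) - y| ≤ R → |(n' : ℝ) - y| ≤ R → f n = f n'

/-- partial quotients -/
noncomputable def rho (g h : ℕ → ℕ) (i : ℕ) : ℝ := ∏ l ∈ range i, ((g l : ℝ) / (h l : ℝ))

lemma rho_succ (g h : ℕ → ℕ) (i : ℕ) : rho g h (i + 1) = rho g h i * ((g i : ℝ) / (h i : ℝ)) := by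
  unfold rho; rw [prod_range_succ]

lemma transfer (hf : CMSign f) {R x : ℝ} {g h : ℕ → ℕ} {N : ℕ}
    (hg : ∀ i, 1 ≤ g i ∧ (g i : ℝ) ≤ R) (hh : ∀ i, 1 ≤ h i ∧ (h i : ℝ) ≤ R)
    (hgood : ∀ i ≤ N, Good f R (x * rho g h i)) (hbig : ∀ i ≤ N, R ≤ x * rho g h i) :
    ∀ i ≤ N, ∀ n n' : ℕ, |(n : ℝ) - x * rho g h 0| ≤ R → |(n' : ℝ) - x * rho g h i| ≤ R →
      f n' = (∏ l ∈ range i, f (g l) * f (h l)) * f n := by
  intro i
  induction i with
  | zero =>
    intro h0 n n' hn hn'
    rw [range_zero, prod_empty, one_mul]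
    exact hgood 0 h0 _ _ hn' hn
  | succ i ih =>
    intro hi n n' hn hn'
    set y := x * rho g h i with hy
    have hyR : R ≤ y := hbig i (by omega)
    have hh1 : (1 : ℝ) ≤ h i := by exact_mod_cast (hh i).1
    have hg1 : (1 : ℝ) ≤ g i := by exact_mod_cast (hg i).1
    set b := ⌊y / h i⌋₊ with hb
    have hy0 : 0 ≤ y / h i := by
      have : 0 ≤ y := by linarith [(hh i).2]
      positivity
    have hb1 : 1 ≤ b := by
      rw [hb, Nat.one_le_floor_iff, le_div_iff₀ (by linarith)]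
      linarith [(hh i).2]
    have hble : (b : ℝ) ≤ y / h i := Nat.floor_le hy0
    have hblt : y / h i < b + 1 := Nat.lt_floor_add_one _
    have e1 : |((h i * b : ℕ) : ℝ) - y| ≤ R := by
      push_cast
      have h1 : (h i : ℝ) * b ≤ y := by
        have := mul_le_mul_of_nonneg_left hble (show (0 : ℝ) ≤ h i by linarith)
        rwa [mul_div_cancel₀ _ (by linarith : (h i : ℝ) ≠ 0)] at this
      have h2 : y ≤ (h i : ℝ) * b + h i := by
        have := mul_le_mul_of_nonneg_left hblt.le (show (0 : ℝ) ≤ h i by linarith)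
        rw [mul_div_cancel₀ _ (by linarith : (h i : ℝ) ≠ 0)] at this
        linarith
      rw [abs_le]; constructor <;> linarith [(hh i).2]
    have e2 : |((g i * b : ℕ) : ℝ) - x * rho g h (i + 1)| ≤ R := by
      rw [rho_succ, ← mul_assoc, ← hy]
      push_cast
      have e3 : y * ((g i : ℝ) / h i) = g i * (y / h i) := by ring
      rw [e3]
      have h1 : (g i : ℝ) * b ≤ g i * (y / h i) :=
        mul_le_mul_of_nonneg_left hble (by linarith)
      have h2 : (g i : ℝ) * (y / h i) ≤ g i * (b + 1) :=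
        mul_le_mul_of_nonneg_left hblt.le (by linarith)
      rw [abs_le]; constructor <;> nlinarith [(hg i).2]
    have k1 := ih (by omega) n (h i * b) hn e1
    have k2 := hgood (i + 1) hi n' (g i * b) hn' e2
    rw [k2, hf.mul _ _ (hg i).1 hb1, prod_range_succ]
    rw [hf.mul _ _ (hh i).1 hb1] at k1
    have hfb : f b = f (h i) * (f (h i) * f b) := by
      rcases hf.val _ (hh i).1 with h1 | h1 <;> rw [h1] <;> ring
    rw [hfb, k1]; ring

lemma card_close (T : Finset ℕ) (D : ℕ) (h : ∀ x ∈ T, ∀ y ∈ T, x ≤ y + D) : T.card ≤ D + 1 := by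
  rcases T.eq_empty_or_nonempty with rfl | hT
  · simp
  · have : T ⊆ Icc (T.min' hT) (T.min' hT + D) := by
      intro x hx
      rw [mem_Icc]
      exact ⟨T.min'_le x hx, h x hx _ (T.min'_mem hT)⟩
    have := card_le_card this
    rw [Nat.card_Icc] at this
    omega

/-- sign changes in `[m, 2m)` -/
def chg (f : ℕ → ℤ) (m : ℕ) : Finset ℕ := (Ico m (2 * m)).filter (fun d => f d ≠ f (d + 1))

lemma exists_change {f : ℕ → ℤ} {n n' : ℕ} (hlt : n ≤ n') (h : f n ≠ f n') :
    ∃ d, n ≤ d ∧ d < n' ∧ f d ≠ f (d + 1) := by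
  induction n', hlt using Nat.le_induction with
  | base => exact absurd rfl h
  | succ k hk ih =>
    by_cases h1 : f n = f k
    · exact ⟨k, hk, by omega, by rw [← h1]; exact h⟩
    · obtain ⟨d, h2, h3, h4⟩ := ih h1
      exact ⟨d, h2, by omega, h4⟩

lemma not_good_change {f : ℕ → ℤ} {R y : ℝ} {m : ℕ} (h : ¬ Good f R y) (h1 : (m : ℝ) ≤ y - R)
    (h2 : y + R < 2 * m) : ∃ d ∈ chg f m, |(d : ℝ) - y| ≤ R := by
  unfold Good at h
  push Not at h
  obtain ⟨n, n', hn, hn', hne⟩ := h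
  wlog hle : n ≤ n' generalizing n n'
  · exact this n' n hn' hn hne.symm (by omega)
  obtain ⟨d, hd1, hd2, hd3⟩ := exists_change hle hne
  rw [abs_le] at hn hn'
  have c1 : (n : ℝ) ≤ d := by exact_mod_cast hd1
  have c2 : (d : ℝ) ≤ n' := by exact_mod_cast hd2.le
  refine ⟨d, ?_, ?_⟩
  · simp only [chg, mem_filter, mem_Ico]
    refine ⟨⟨?_, ?_⟩, hd3⟩
    · have : (m : ℝ) ≤ d := by linarith [hn.1]
      exact_mod_cast this
    · have : (d : ℝ) < 2 * m := by linarith [hn'.2]
      exact_mod_cast this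
  · rw [abs_le]; constructor <;> linarith [hn.1, hn'.2]

lemma rho_bounds {g h : ℕ → ℕ} {a J N : ℕ} (ha : 1 ≤ a)
    (hg : ∀ i, a ≤ g i ∧ g i ≤ a + J) (hh : ∀ i, a ≤ h i ∧ h i ≤ a + J)
    (hbig : 100 * (N * J) ≤ 7 * a) :
    ∀ i ≤ N, (0.93 : ℝ) ≤ rho g h i ∧ rho g h i ≤ 1.08 := by
  have ha' : (1 : ℝ) ≤ a := by exact_mod_cast ha
  set t : ℝ := J / a with ht
  have ht0 : 0 ≤ t := by positivity
  have hNt : (N : ℝ) * t ≤ 0.07 := by
    rw [ht, ← mul_div_assoc, div_le_iff₀ (by linarith)]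
    have : (100 * (N * J) : ℝ) ≤ 7 * a := by exact_mod_cast hbig
    linarith
  have hfac : ∀ i, Real.exp (-t) ≤ (g i : ℝ) / h i ∧ (g i : ℝ) / h i ≤ Real.exp t := by
    intro i
    have g1 : (a : ℝ) ≤ g i := by exact_mod_cast (hg i).1
    have g2 : (g i : ℝ) ≤ a + J := by exact_mod_cast (hg i).2
    have h1 : (a : ℝ) ≤ h i := by exact_mod_cast (hh i).1
    have h2 : (h i : ℝ) ≤ a + J := by exact_mod_cast (hh i).2
    have hexp : (a + J : ℝ) ≤ a * Real.exp t := by
      have := Real.add_one_le_exp t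
      have h3 : (a : ℝ) * (t + 1) = a + J := by rw [ht]; field_simp; ring
      nlinarith
    constructor
    · rw [Real.exp_neg, le_div_iff₀ (by linarith), inv_mul_le_iff₀ (Real.exp_pos _)]
      nlinarith [Real.exp_pos t]
    · rw [div_le_iff₀ (by linarith)]
      nlinarith [Real.exp_pos t]
  have key : ∀ i : ℕ, Real.exp (-(i * t)) ≤ rho g h i ∧ rho g h i ≤ Real.exp (i * t) := by
    intro i
    induction i with
    | zero => simp [rho]
    | succ i ih =>
      rw [rho_succ]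
      push_cast
      have e1 : -(((i : ℝ) + 1) * t) = -(i * t) + -t := by ring
      have e2 : ((i : ℝ) + 1) * t = i * t + t := by ring
      rw [e1, e2, Real.exp_add, Real.exp_add]
      have h0 : 0 < Real.exp (-(i * t)) := Real.exp_pos _
      have h1 : 0 < Real.exp (-t) := Real.exp_pos _
      constructor
      · exact mul_le_mul ih.1 (hfac i).1 h1.le (h0.le.trans ih.1)
      · exact mul_le_mul ih.2 (hfac i).2 (h1.le.trans (hfac i).1) (Real.exp_pos _).le
  intro i hi
  have hit : (i : ℝ) * t ≤ 0.07 := by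
    have : (i : ℝ) ≤ N := by exact_mod_cast hi
    nlinarith
  obtain ⟨k1, k2⟩ := key i
  constructor
  · refine le_trans ?_ k1
    have := Real.add_one_le_exp (-((i : ℝ) * t))
    linarith
  · refine k2.trans ?_
    have h1 : Real.exp ((i : ℝ) * t) ≤ Real.exp 0.07 := Real.exp_le_exp.mpr hit
    refine h1.trans ?_
    have h2 := Real.add_one_le_exp (-0.07 : ℝ)
    have h3 : Real.exp 0.07 * Real.exp (-0.07) = 1 := by
      rw [← Real.exp_add]; norm_num
    have h4 : 0 < Real.exp (0.07 : ℝ) := Real.exp_pos _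
    nlinarith

/-- **Key inequality**: many sign changes. -/
theorem many_changes (s : ℕ) : ∃ K C : ℝ, 0 < K ∧ 1 ≤ C ∧ ∃ k0 : ℕ, 1 ≤ k0 ∧
    ∀ f : ℕ → ℤ, CMSign f → f 2 = -1 → ∀ m a0 : ℕ, k0 ≤ a0 →
      C * m ≤ (a0 : ℝ) ^ (2 ^ s + 1) → 100 * (2 ^ s * a0) ≤ m →
      (m : ℝ) ≤ K * a0 * (chg f m).card := by
  set t := 2 ^ s with ht
  have ht1 : 1 ≤ t := Nat.one_le_two_pow
  obtain ⟨j, hj⟩ : ∃ j, t = j + 1 := ⟨t - 1, by omega⟩
  set N := 2 ^ j with hN
  obtain ⟨C, hC, hclose⟩ := gh_close j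
  have hN1 : 1 ≤ N := Nat.one_le_two_pow
  refine ⟨60 * ((N + 1) * t), max C 1, by positivity, le_max_right _ _, 100 * N, by omega, ?_⟩
  intro f hf hf2 m a0 ha0 hCm hsmall
  have ha01 : 1 ≤ a0 := by omega
  -- the sign change at scale `a0`
  obtain ⟨b, hb1, hb2, hb3⟩ : ∃ b, a0 ≤ b ∧ b < 2 * a0 ∧ f b ≠ f (b + 1) := by
    apply exists_change (by omega)
    rw [hf.mul 2 a0 (by norm_num) ha01, hf2]
    rcases hf.val a0 ha01 with h | h <;> rw [h] <;> norm_num
  set a := t * b with ha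
  have ha1 : 1 ≤ a := Nat.mul_pos ht1 (by omega)
  have hta0 : t * a0 ≤ a := Nat.mul_le_mul le_rfl hb1
  have hata : a ≤ 2 * (t * a0) := by
    calc a = t * b := rfl
      _ ≤ t * (2 * a0) := Nat.mul_le_mul le_rfl hb2.le
      _ = 2 * (t * a0) := by ring
  have htle : t ≤ t * a0 := Nat.le_mul_of_pos_right _ ha01
  have hsg : sg f j a = -1 := by
    rw [sg_eq, ← hj, ht, opE_pow s f hf.val a ha1]
    have e : a + 2 ^ s = t * (b + 1) := by rw [ha, ← ht]; ring
    rw [e, ha, hf.mul t b ht1 (by omega), hf.mul t (b + 1) ht1 (by omega)]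
    rcases hf.val t ht1 with h1 | h1 <;> rcases hf.val b (by omega) with h2 | h2 <;>
      rcases hf.val (b + 1) (by omega) with h3 | h3 <;> rw [h1, h2, h3] <;>
      first
      | (exfalso; apply hb3; rw [h2, h3]; done)
      | norm_num
  set g := (gh j a).1 with hg
  set h := (gh j a).2 with hh
  have hgr : ∀ i, a ≤ g i ∧ g i ≤ a + t := fun i => by
    rw [hj]; exact ⟨(gh_range j a i).1, (gh_range j a i).2.1⟩
  have hhr : ∀ i, a ≤ h i ∧ h i ≤ a + t := fun i => by
    rw [hj]; exact ⟨(gh_range j a i).2.2.1, (gh_range j a i).2.2.2⟩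
  -- the radius
  set R : ℕ := 3 * (t * a0) with hR
  have hRpos : 1 ≤ R := by omega
  have hg' : ∀ i, 1 ≤ g i ∧ (g i : ℝ) ≤ R := fun i => by
    have := hgr i
    exact ⟨by omega, by exact_mod_cast (by omega : g i ≤ R)⟩
  have hh' : ∀ i, 1 ≤ h i ∧ (h i : ℝ) ≤ R := fun i => by
    have := hhr i
    exact ⟨by omega, by exact_mod_cast (by omega : h i ≤ R)⟩
  have hNt : 100 * (N * t) ≤ 7 * a := by
    have h1 : 100 * N * t ≤ a0 * t := Nat.mul_le_mul ha0 le_rfl
    have h2 : a0 * t = t * a0 := by ring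
    have h3 : 100 * N * t = 100 * (N * t) := by ring
    omega
  have hrho := rho_bounds ha1 hgr hhr hNt
  have haR : (1 : ℝ) ≤ a := by exact_mod_cast ha1
  -- closeness at the end
  have hlast : ∀ z : ℝ, 0 ≤ z → z ≤ 2 * m → |z - z * rho g h N| ≤ R := by
    intro z hz0 hz
    have hQ0 : 0 < ∏ i ∈ range N, ((h i : ℕ) : ℝ) := by
      apply prod_pos
      intro i _
      have := (hh' i).1
      positivity
    have hc := hclose a ha1
    have hrhoN : rho g h N = (∏ i ∈ range N, ((g i : ℕ) : ℝ)) / ∏ i ∈ range N, ((h i : ℕ) : ℝ) := by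
      unfold rho; rw [prod_div_distrib]
    have e1 : 1 - rho g h N = -((∏ i ∈ range N, ((g i : ℕ) : ℝ)) -
        ∏ i ∈ range N, ((h i : ℕ) : ℝ)) / ∏ i ∈ range N, ((h i : ℕ) : ℝ) := by
      rw [hrhoN]; field_simp; ring
    have e2 : |1 - rho g h N| * (a : ℝ) ^ t ≤ C := by
      rw [e1, abs_div, abs_neg, abs_of_pos hQ0, div_mul_eq_mul_div, div_le_iff₀ hQ0, hj]
      exact hc
    have e3 : |z - z * rho g h N| = z * |1 - rho g h N| := by
      have : z - z * rho g h N = z * (1 - rho g h N) := by ring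
      rw [this, abs_mul, abs_of_nonneg hz0]
    rw [e3]
    have hapow : (0 : ℝ) < (a : ℝ) ^ t := by positivity
    -- 2 m C ≤ R a^t
    have e4 : 2 * m * C ≤ R * (a : ℝ) ^ t := by
      have h1 : C * m ≤ (a0 : ℝ) ^ (t + 1) :=
        le_trans (mul_le_mul_of_nonneg_right (le_max_left _ _) (by positivity)) hCm
      have h2 : (a0 : ℝ) ≤ a := by
        have : a0 ≤ a := by nlinarith
        exact_mod_cast this
      have h3 : (a0 : ℝ) ^ t ≤ (a : ℝ) ^ t := pow_le_pow_left₀ (by positivity) h2 t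
      have h4 : (3 : ℝ) * a0 ≤ R := by
        have : 3 * a0 ≤ R := by nlinarith
        exact_mod_cast this
      have h5 : (a0 : ℝ) ^ (t + 1) = a0 * (a0 : ℝ) ^ t := by ring
      have h6 : (0 : ℝ) ≤ a0 := by positivity
      have h7 : (0 : ℝ) ≤ (a0 : ℝ) ^ t := by positivity
      calc 2 * m * C = 2 * (C * m) := by ring
        _ ≤ 2 * (a0 * (a0 : ℝ) ^ t) := by rw [← h5]; linarith
        _ ≤ (3 * a0) * (a0 : ℝ) ^ t := by nlinarith
        _ ≤ R * (a : ℝ) ^ t := mul_le_mul h4 h3 h7 (by positivity)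
    have e5 : z * |1 - rho g h N| * (a : ℝ) ^ t ≤ R * (a : ℝ) ^ t := by
      calc z * |1 - rho g h N| * (a : ℝ) ^ t = z * (|1 - rho g h N| * (a : ℝ) ^ t) := by ring
        _ ≤ (2 * m) * C := mul_le_mul hz e2 (by positivity) (by positivity)
        _ ≤ _ := e4
    exact le_of_mul_le_mul_right e5 hapow
  -- the set of starting points
  set Z := Ico (6 * m / 5 + 1) (8 * m / 5) with hZ
  have hRm : (R : ℝ) ≤ 0.03 * m := by
    have : 100 * R ≤ 3 * m := by omega
    have : (100 * R : ℝ) ≤ 3 * m := by exact_mod_cast this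
    linarith
  have hcover : ∀ z ∈ Z, ∃ i ∈ range (N + 1), ∃ d ∈ chg f m, |(d : ℝ) - z * rho g h i| ≤ R := by
    intro z hz
    rw [hZ, mem_Ico] at hz
    have hz1 : (1.2 : ℝ) * m ≤ z := by
      have : 6 * m ≤ 5 * z := by omega
      have : (6 * m : ℝ) ≤ 5 * z := by exact_mod_cast this
      linarith
    have hz2 : (z : ℝ) ≤ 1.6 * m := by
      have : 5 * z ≤ 8 * m := by omega
      have : (5 * z : ℝ) ≤ 8 * m := by exact_mod_cast this
      linarith
    have hm0 : (0 : ℝ) < m := by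
      have : 0 < m := by omega
      exact_mod_cast this
    have lo : ∀ i ≤ N, (m : ℝ) ≤ z * rho g h i - R := by
      intro i hi
      have := (hrho i hi).1
      nlinarith
    have up : ∀ i ≤ N, z * rho g h i + R < 2 * m := by
      intro i hi
      have h1 := (hrho i hi).2
      have h0 := (hrho i hi).1
      have : (z : ℝ) * rho g h i ≤ 1.6 * m * 1.08 :=
        mul_le_mul hz2 h1 (by linarith) (by positivity)
      linarith
    by_contra hcon
    have hgood : ∀ i ≤ N, Good f R (z * rho g h i) := by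
      intro i hi
      by_contra hng
      obtain ⟨d, hd, hd'⟩ := not_good_change hng (lo i hi) (up i hi)
      exact hcon ⟨i, mem_range.mpr (by omega), d, hd, hd'⟩
    have htr := transfer hf hg' hh' hgood (fun i hi => by
      have := lo i hi
      have : (0 : ℝ) < m := hm0
      have hRm' := hRm
      linarith [lo i hi]) N le_rfl z z (by
        have : rho g h 0 = 1 := by simp [rho]
        rw [this]; simp) (hlast z (by positivity) (by linarith))
    have hprod : ∏ l ∈ range N, f (g l) * f (h l) = -1 := by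
      rw [prod_mul_distrib, hg, hh, hN, gh_sign hf j a ha1, hsg]
    rw [hprod] at htr
    have hz1' : 1 ≤ z := by omega
    rcases hf.val z hz1' with h1 | h1 <;> rw [h1] at htr <;> norm_num at htr
  -- counting
  have hsub : Z ⊆ (range (N + 1) ×ˢ chg f m).biUnion
      (fun p => Z.filter (fun z : ℕ => |(p.2 : ℝ) - z * rho g h p.1| ≤ R)) := by
    intro z hz
    obtain ⟨i, hi, d, hd, hdz⟩ := hcover z hz
    rw [mem_biUnion]
    exact ⟨(i, d), mem_product.mpr ⟨hi, hd⟩, mem_filter.mpr ⟨hz, hdz⟩⟩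
  have hfib : ∀ p ∈ range (N + 1) ×ˢ chg f m,
      (Z.filter (fun z : ℕ => |(p.2 : ℝ) - z * rho g h p.1| ≤ R)).card ≤ 3 * R + 1 := by
    intro p hp
    have hp1 : p.1 ≤ N := by
      have := mem_range.mp (mem_product.mp hp).1
      omega
    apply card_close
    intro x hx y hy
    have hx' := (mem_filter.mp hx).2
    have hy' := (mem_filter.mp hy).2
    rw [abs_le] at hx' hy'
    have h1 := (hrho p.1 hp1).1
    by_contra hcon
    have h2 : y + 3 * R + 1 ≤ x := by omega
    have h3 : (y : ℝ) + 3 * R + 1 ≤ x := by exact_mod_cast h2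
    have h4 : ((x : ℝ) - y) * rho g h p.1 ≤ 2 * R := by nlinarith [hx'.1, hy'.2]
    have hR0 : (1 : ℝ) ≤ R := by exact_mod_cast hRpos
    nlinarith
  have hcard : Z.card ≤ (N + 1) * (chg f m).card * (3 * R + 1) := by
    refine (card_le_card hsub).trans (card_biUnion_le.trans ?_)
    refine (sum_le_card_nsmul _ _ _ hfib).trans ?_
    rw [card_product, card_range, smul_eq_mul]
  rw [hZ, Nat.card_Ico] at hcard
  have hm100 : 100 ≤ m := by
    have : 1 ≤ t * a0 := by omega
    omega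
  have hm5 : m ≤ 5 * (8 * m / 5 - (6 * m / 5 + 1)) := by omega
  have h3R : 3 * R + 1 ≤ 12 * (t * a0) := by omega
  have hfin : m ≤ 60 * ((N + 1) * t) * a0 * (chg f m).card := by
    calc m ≤ 5 * ((N + 1) * (chg f m).card * (3 * R + 1)) :=
          hm5.trans (Nat.mul_le_mul le_rfl hcard)
      _ ≤ 5 * ((N + 1) * (chg f m).card * (12 * (t * a0))) :=
          Nat.mul_le_mul le_rfl (Nat.mul_le_mul le_rfl h3R)
      _ = _ := by ring
  exact_mod_cast hfin

end Pool.Agent.Work.MP_3a3367_nt
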