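import Mathlib
import Pool.Agent.Work.MP_3a3367_nt.PartC

/-!
# Part (b), assembly
-/

namespace Pool.Agent.Work.MP_3a3367_nt

open Finset

variable {f : ℕ → ℤ}

/-- divisor bound -/
theorem div_bound (δ : ℝ) (hδ : 0 < δ) : ∃ T : ℝ, 1 ≤ T ∧ ∀ n : ℕ, n ≠ 0 →
    ((n.divisors.card : ℕ) : ℝ) ≤ T * (n : ℝ) ^ δ := by
  have hl2 : 0 < Real.log 2 := Real.log_pos (by norm_num)
  set P0 : ℕ := ⌈(2 : ℝ) ^ (1 / δ)⌉₊ with hP0
  set K : ℝ := max 1 (1 / (δ * Real.log 2)) with hK
  have hK1 : 1 ≤ K := le_max_left _ _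
  refine ⟨K ^ P0, one_le_pow₀ hK1, ?_⟩
  intro n hn
  have hterm : ∀ p ∈ n.primeFactors, (((n.factorization p + 1 : ℕ) : ℝ)) ≤
      (if p < P0 then K else 1) * ((p : ℝ) ^ (n.factorization p)) ^ δ := by
    intro p hp
    have hpp := Nat.prime_of_mem_primeFactors hp
    have hp2 : (2 : ℝ) ≤ p := by exact_mod_cast hpp.two_le
    set a := n.factorization p with ha
    have hswap : ((p : ℝ) ^ a) ^ δ = ((p : ℝ) ^ δ) ^ a := by
      rw [← Real.rpow_natCast, ← Real.rpow_natCast, ← Real.rpow_mul (by linarith),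
        ← Real.rpow_mul (by linarith), mul_comm]
    by_cases hpt : p < P0
    · rw [if_pos hpt]
      have h1 : (1 : ℝ) + δ * Real.log 2 * a ≤ ((p : ℝ) ^ a) ^ δ := by
        have h2 : (2 : ℝ) ^ δ ≤ (p : ℝ) ^ δ := Real.rpow_le_rpow (by norm_num) hp2 hδ.le
        have h3 : ((2 : ℝ) ^ δ) ^ a ≤ ((p : ℝ) ^ δ) ^ a := pow_le_pow_left₀ (by positivity) h2 a
        rw [hswap]
        refine le_trans ?_ h3
        rw [Real.rpow_def_of_pos (by norm_num), ← Real.exp_nat_mul]
        have := Real.add_one_le_exp ((a : ℝ) * (Real.log 2 * δ))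
        linarith
      push_cast
      have h4 : K * (1 + δ * Real.log 2 * a) ≤ K * ((p : ℝ) ^ a) ^ δ :=
        mul_le_mul_of_nonneg_left h1 (by linarith)
      refine le_trans ?_ h4
      have h5 : 1 ≤ K * (δ * Real.log 2) := by
        have h6 : 1 / (δ * Real.log 2) ≤ K := le_max_right _ _
        rwa [div_le_iff₀ (by positivity)] at h6
      have h7 : (0 : ℝ) ≤ a := by positivity
      nlinarith
    · rw [if_neg hpt, one_mul, hswap]
      have h1 : (2 : ℝ) ≤ (p : ℝ) ^ δ := by
        have h2 : (2 : ℝ) ^ (1 / δ) ≤ p := by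
          refine (Nat.le_ceil _).trans ?_
          exact_mod_cast (not_lt.mp hpt)
        calc (2 : ℝ) = ((2 : ℝ) ^ (1 / δ)) ^ δ := by
              rw [← Real.rpow_mul (by norm_num), one_div_mul_cancel hδ.ne', Real.rpow_one]
          _ ≤ (p : ℝ) ^ δ := Real.rpow_le_rpow (by positivity) h2 hδ.le
      calc ((a + 1 : ℕ) : ℝ) ≤ 2 ^ a := by
            have : a + 1 ≤ 2 ^ a := Nat.lt_two_pow_self
            exact_mod_cast this
        _ ≤ ((p : ℝ) ^ δ) ^ a := pow_le_pow_left₀ (by norm_num) h1 a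
  rw [Nat.card_divisors hn]
  push_cast
  have hterm' : ∀ p ∈ n.primeFactors, ((n.factorization p : ℝ) + 1) ≤
      (if p < P0 then K else 1) * ((p : ℝ) ^ (n.factorization p)) ^ δ := by
    intro p hp
    have := hterm p hp
    push_cast at this
    exact this
  refine (prod_le_prod (fun p _ => by positivity) hterm').trans ?_
  rw [prod_mul_distrib, Real.finsetProd_rpow _ _ (fun p _ => by positivity)]
  have hn' : (∏ p ∈ n.primeFactors, (p : ℝ) ^ (n.factorization p)) = n := by
    have := Nat.prod_factorization_pow_eq_self hn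
    rw [Finsupp.prod, Nat.support_factorization] at this
    exact_mod_cast this
  rw [hn']
  refine mul_le_mul_of_nonneg_right ?_ (by positivity)
  rw [prod_ite, prod_const, prod_const_one, mul_one]
  refine pow_le_pow_right₀ hK1 ?_
  calc (n.primeFactors.filter (fun p => p < P0)).card ≤ (range P0).card := by
        apply card_le_card
        intro p hp
        exact mem_range.mpr (mem_filter.mp hp).2
    _ = P0 := card_range _

/-- the elements with `f = -1` between `(m-1)²` and `(m+1)²` -/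
def neg (f : ℕ → ℤ) (m : ℕ) : Finset ℕ :=
  (Ioo ((m - 1) ^ 2) ((m + 1) ^ 2)).filter (fun N => f N = -1)

lemma chg_le_neg (hf : CMSign f) (m : ℕ) (hm : 1 ≤ m) {T : ℝ} (hT0 : 0 ≤ T)
    (hT : ∀ n ∈ neg f m, ((n.divisors.card : ℕ) : ℝ) ≤ T) :
    ((chg f m).card : ℝ) ≤ 2 * T * (neg f m).card := by
  have hsub : chg f m ⊆ (neg f m).biUnion
      (fun n => n.divisors ∪ n.divisors.image (fun d => d - 1)) := by
    intro d hd
    simp only [chg, mem_filter, mem_Ico] at hd
    obtain ⟨⟨hd1, hd2⟩, hd3⟩ := hd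
    set X := (m - 1) ^ 2 with hX
    obtain ⟨q, hq⟩ : ∃ q, m = q + 1 := ⟨m - 1, by omega⟩
    have hXq : X = q * q := by rw [hX, hq, Nat.add_sub_cancel]; ring
    have hX2 : (m + 1) ^ 2 = X + 4 * m := by rw [hXq, hq]; ring
    set e := X / d + 1 with he
    have hd0 : 0 < d := by omega
    have h1 : X < d * e := by
      have := Nat.lt_div_mul_add (a := X) hd0
      rw [he]; nlinarith
    have h2 : d * e ≤ X + d := by
      have := Nat.div_mul_le_self X d
      rw [he]; nlinarith
    have h3 : e ≤ m := by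
      have : X / d ≤ q := by
        apply Nat.div_le_of_le_mul
        rw [hXq]
        exact Nat.mul_le_mul (by omega) le_rfl
      omega
    have h4 : (d + 1) * e < (m + 1) ^ 2 := by
      rw [hX2]
      have : (d + 1) * e = d * e + e := by ring
      omega
    have h5 : d * e < (m + 1) ^ 2 := by
      have : (d + 1) * e = d * e + e := by ring
      omega
    have he1 : 1 ≤ e := Nat.succ_le_of_lt (Nat.succ_pos _)
    have h6 : X < (d + 1) * e := by
      have : d * e ≤ (d + 1) * e := Nat.mul_le_mul (by omega) le_rfl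
      exact lt_of_lt_of_le h1 this
    have m1 := hf.mul d e (by omega) he1
    have m2 := hf.mul (d + 1) e (by omega) he1
    rw [mem_biUnion]
    rcases hf.val (d * e) (Nat.mul_pos hd0 he1) with h7 | h7
    · have h8 : f ((d + 1) * e) = -1 := by
        rcases hf.val ((d + 1) * e) (Nat.mul_pos (by omega) he1) with h8 | h8
        · exfalso
          apply hd3
          have e1 := hf.eq_of_mul (show 1 ≤ d by omega) he1 h7
          have e2 := hf.eq_of_mul (show 1 ≤ d + 1 by omega) he1 h8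
          rw [e1, e2]
        · exact h8
      refine ⟨(d + 1) * e, ?_, ?_⟩
      · simp only [neg, mem_filter, mem_Ioo]
        exact ⟨⟨h6, h4⟩, h8⟩
      · rw [mem_union, mem_image]
        right
        refine ⟨d + 1, ?_, by omega⟩
        rw [Nat.mem_divisors]
        exact ⟨Dvd.intro _ rfl, by have := Nat.mul_pos (show 0 < d + 1 by omega) he1; omega⟩
    · refine ⟨d * e, ?_, ?_⟩
      · simp only [neg, mem_filter, mem_Ioo]
        exact ⟨⟨h1, h5⟩, h7⟩
      · rw [mem_union]
        left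
        rw [Nat.mem_divisors]
        exact ⟨Dvd.intro _ rfl, by have := Nat.mul_pos hd0 he1; omega⟩
  have hcard : (chg f m).card ≤ ∑ n ∈ neg f m, 2 * n.divisors.card := by
    refine (card_le_card hsub).trans (card_biUnion_le.trans ?_)
    refine sum_le_sum ?_
    intro n _
    refine (card_union_le _ _).trans ?_
    have : (n.divisors.image (fun d => d - 1)).card ≤ n.divisors.card := card_image_le
    omega
  have hcard' : ((chg f m).card : ℝ) ≤ ∑ n ∈ neg f m, 2 * ((n.divisors.card : ℕ) : ℝ) := by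
    exact_mod_cast hcard
  refine hcard'.trans ?_
  refine (sum_le_sum (fun n hn => mul_le_mul_of_nonneg_left (hT n hn) (by norm_num))).trans ?_
  rw [sum_const, nsmul_eq_mul]
  linarith

/-- **Part (b)** uniform in `f`. -/
theorem count_bound (ε : ℝ) (hε : 0 < ε) : ∃ c : ℝ, 0 < c ∧ ∀ f : ℕ → ℤ, CMSign f → f 2 = -1 →
    ∀ k : ℕ, 1 ≤ k → c * (k : ℝ) ^ (1 - ε) ≤ (neg f (2 * k)).card := by
  -- parameters
  obtain ⟨s, hs⟩ : ∃ s : ℕ, 2 / ε ≤ 2 ^ s := by
    obtain ⟨s, hs⟩ := pow_unbounded_of_one_lt (2 / ε) (by norm_num : (1 : ℝ) < 2)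
    exact ⟨s, hs.le⟩
  obtain ⟨K, C, hK, hC, k0, hk0, hmany⟩ := many_changes s
  obtain ⟨T, hT1, hT⟩ := div_bound (ε / 4) (by positivity)
  set t : ℕ := 2 ^ s with ht
  have ht1 : 1 ≤ t := Nat.one_le_two_pow
  set α : ℝ := 1 / ((t : ℝ) + 1) with hα
  have ht1' : (1 : ℝ) ≤ t := by exact_mod_cast ht1
  have hα0 : 0 < α := by positivity
  have hαhalf : α ≤ 1 / 2 := by
    rw [hα]; apply one_div_le_one_div_of_le <;> linarith
  have hαε : α ≤ ε / 2 := by
    rw [hα, div_le_iff₀ (by positivity)]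
    have h1 : 2 / ε ≤ t := by rw [ht]; push_cast; exact hs
    rw [div_le_iff₀ hε] at h1
    nlinarith
  obtain ⟨m0, hm0⟩ : ∃ m0 : ℕ, max ((k0 : ℝ) ^ (t + 1)) (40000 * t ^ 2 * C) ≤ m0 :=
    ⟨_, Nat.le_ceil _⟩
  set c1 : ℝ := 1 / (2 * K * C ^ α) with hc1
  set c2 : ℝ := c1 / (2 * T * 16 ^ (ε / 4)) with hc2
  have hCpos : 0 < C := by linarith
  have hc1pos : 0 < c1 := by positivity
  have hTpos : 0 < T := by linarith
  have hc2pos : 0 < c2 := by positivity
  refine ⟨min c2 (1 / ((m0 : ℝ) + 1)), by positivity, ?_⟩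
  intro f hf hf2 k hk
  have hk' : (1 : ℝ) ≤ k := by exact_mod_cast hk
  have hkpow : (0 : ℝ) < (k : ℝ) ^ (1 - ε) := by positivity
  rcases Nat.lt_or_ge (2 * k) m0 with hsmall | hbig
  · -- small `k`
    have h1 : 1 ≤ (neg f (2 * k)).card := by
      obtain ⟨N, hN1, hN2, hN3⟩ := between_squares hf hf2 (2 * k) (by omega)
      apply card_pos.mpr
      refine ⟨N, ?_⟩
      simp only [neg, mem_filter, mem_Ioo]
      refine ⟨⟨?_, hN2⟩, hN3⟩
      refine lt_of_le_of_lt ?_ hN1
      exact Nat.pow_le_pow_left (by omega) 2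
    have h1' : (1 : ℝ) ≤ (neg f (2 * k)).card := by exact_mod_cast h1
    refine le_trans ?_ h1'
    have h2 : (k : ℝ) ^ (1 - ε) ≤ k := by
      calc (k : ℝ) ^ (1 - ε) ≤ (k : ℝ) ^ (1 : ℝ) :=
            Real.rpow_le_rpow_of_exponent_le hk' (by linarith)
        _ = k := Real.rpow_one _
    have h3 : (k : ℝ) ≤ m0 := by
      have : k ≤ m0 := by omega
      exact_mod_cast this
    calc min c2 (1 / ((m0 : ℝ) + 1)) * (k : ℝ) ^ (1 - ε)
        ≤ (1 / ((m0 : ℝ) + 1)) * ((m0 : ℝ) + 1) :=
          mul_le_mul (min_le_right _ _) (by linarith) hkpow.le (by positivity)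
      _ = 1 := by field_simp
  · -- large `k`
    set m : ℕ := 2 * k with hm
    have hmm : (m0 : ℝ) ≤ m := by exact_mod_cast hbig
    have hmpos : (0 : ℝ) < m := by
      have : 0 < m := by omega
      exact_mod_cast this
    have hm1 : (k0 : ℝ) ^ (t + 1) ≤ m := (le_max_left _ _).trans (hm0.trans hmm)
    have hm2 : 40000 * (t : ℝ) ^ 2 * C ≤ m := (le_max_right _ _).trans (hm0.trans hmm)
    set Y : ℝ := (C * m) ^ α with hY
    have hCm0 : 0 < C * m := by positivity
    have hY0 : 0 < Y := by positivity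
    have hYt : Y ^ (t + 1) = C * m := by
      rw [hY, ← Real.rpow_natCast, ← Real.rpow_mul hCm0.le, hα]
      push_cast
      rw [one_div_mul_cancel (by positivity), Real.rpow_one]
    have hYk0 : (k0 : ℝ) ≤ Y := by
      by_contra hcon
      push Not at hcon
      have : Y ^ (t + 1) < (k0 : ℝ) ^ (t + 1) := pow_lt_pow_left₀ hcon hY0.le (by omega)
      rw [hYt] at this
      nlinarith
    have hk01 : (1 : ℝ) ≤ k0 := by exact_mod_cast hk0
    have hY1 : 1 ≤ Y := hk01.trans hYk0
    set a0 : ℕ := ⌈Y⌉₊ with ha0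
    have ha0Y : Y ≤ a0 := Nat.le_ceil _
    have ha0Y2 : (a0 : ℝ) ≤ 2 * Y := by
      have := Nat.ceil_lt_add_one hY0.le
      linarith
    have hka0 : k0 ≤ a0 := by
      have : (k0 : ℝ) ≤ a0 := hYk0.trans ha0Y
      exact_mod_cast this
    have hcond1 : C * m ≤ (a0 : ℝ) ^ (t + 1) := by
      rw [← hYt]
      exact pow_le_pow_left₀ hY0.le ha0Y _
    have hcond2 : 100 * (t * a0) ≤ m := by
      have hCm1 : 1 ≤ C * m := by
        have : (1 : ℝ) ≤ m := by
          have : 1 ≤ m := by omega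
          exact_mod_cast this
        nlinarith
      have h1 : Y ≤ Real.sqrt (C * m) := by
        rw [hY, Real.sqrt_eq_rpow]
        exact Real.rpow_le_rpow_of_exponent_le hCm1 hαhalf
      have h2 : 200 * t * Real.sqrt (C * m) ≤ m := by
        have h3 : (200 * t * Real.sqrt (C * m)) ^ 2 ≤ (m : ℝ) ^ 2 := by
          rw [mul_pow, Real.sq_sqrt hCm0.le]
          have : (200 * (t : ℝ)) ^ 2 * (C * m) = (40000 * (t : ℝ) ^ 2 * C) * m := by ring
          rw [this]
          calc (40000 * (t : ℝ) ^ 2 * C) * m ≤ m * m :=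
                mul_le_mul_of_nonneg_right hm2 hmpos.le
            _ = (m : ℝ) ^ 2 := by ring
        exact le_of_sq_le_sq h3 hmpos.le
      have h4 : (100 * (t * a0) : ℝ) ≤ m := by
        calc (100 * (t * a0) : ℝ) ≤ 100 * (t * (2 * Y)) := by
              have : (t : ℝ) * a0 ≤ t * (2 * Y) := mul_le_mul_of_nonneg_left ha0Y2 (by linarith)
              linarith
          _ = 200 * t * Y := by ring
          _ ≤ 200 * t * Real.sqrt (C * m) := mul_le_mul_of_nonneg_left h1 (by positivity)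
          _ ≤ m := h2
      exact_mod_cast h4
    have hmain := hmany f hf hf2 m a0 hka0 hcond1 hcond2
    -- m ≤ K a0 S ≤ 2 K (C m)^α S
    set S : ℝ := ((chg f m).card : ℝ) with hS
    have hS0 : 0 ≤ S := by positivity
    have h1 : (m : ℝ) ≤ 2 * K * C ^ α * (m : ℝ) ^ α * S := by
      calc (m : ℝ) ≤ K * a0 * S := hmain
        _ ≤ K * (2 * Y) * S := by
            refine mul_le_mul_of_nonneg_right (mul_le_mul_of_nonneg_left ha0Y2 hK.le) hS0
        _ = _ := by rw [hY, Real.mul_rpow hCpos.le hmpos.le]; ring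
    have h2 : c1 * (m : ℝ) ^ (1 - α) ≤ S := by
      rw [hc1, Real.rpow_sub hmpos, Real.rpow_one]
      rw [div_mul_div_comm, one_mul, div_le_iff₀ (by positivity)]
      linarith
    have h3 : ((chg f m).card : ℝ) ≤ 2 * (T * (16 * (k : ℝ) ^ 2) ^ (ε / 4)) * (neg f m).card := by
      refine chg_le_neg hf m (by omega) (by positivity) ?_
      intro n hn
      simp only [neg, mem_filter, mem_Ioo] at hn
      have hn0 : n ≠ 0 := by omega
      refine (hT n hn0).trans ?_
      refine mul_le_mul_of_nonneg_left ?_ hTpos.le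
      refine Real.rpow_le_rpow (by positivity) ?_ (by positivity)
      have h5 : n ≤ 16 * k ^ 2 := by
        have h6 : n < (m + 1) ^ 2 := hn.1.2
        rw [hm] at h6
        nlinarith
      exact_mod_cast h5
    have h4 : (16 * (k : ℝ) ^ 2) ^ (ε / 4) = 16 ^ (ε / 4) * (k : ℝ) ^ (ε / 2) := by
      rw [Real.mul_rpow (by norm_num) (by positivity), ← Real.rpow_natCast,
        ← Real.rpow_mul (by positivity)]
      congr 2
      push_cast; ring
    have h5 : (k : ℝ) ^ (1 - ε / 2) ≤ (m : ℝ) ^ (1 - α) := by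
      have hkm : (k : ℝ) ≤ m := by
        have : k ≤ m := by omega
        exact_mod_cast this
      calc (k : ℝ) ^ (1 - ε / 2) ≤ (k : ℝ) ^ (1 - α) :=
            Real.rpow_le_rpow_of_exponent_le hk' (by linarith)
        _ ≤ (m : ℝ) ^ (1 - α) := Real.rpow_le_rpow (by positivity) hkm (by linarith)
    set B : ℝ := ((neg f m).card : ℝ) with hB
    have hB0 : 0 ≤ B := by positivity
    have h6 : c1 * (k : ℝ) ^ (1 - ε / 2) ≤ 2 * T * 16 ^ (ε / 4) * (k : ℝ) ^ (ε / 2) * B := by
      calc c1 * (k : ℝ) ^ (1 - ε / 2) ≤ c1 * (m : ℝ) ^ (1 - α) :=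
            mul_le_mul_of_nonneg_left h5 hc1pos.le
        _ ≤ S := h2
        _ ≤ _ := h3
        _ = _ := by rw [h4]; ring
    have h7 : (k : ℝ) ^ (1 - ε / 2) = (k : ℝ) ^ (1 - ε) * (k : ℝ) ^ (ε / 2) := by
      rw [← Real.rpow_add (by linarith)]
      congr 1; ring
    have hkε : (0 : ℝ) < (k : ℝ) ^ (ε / 2) := by positivity
    rw [h7] at h6
    have h8 : c1 * (k : ℝ) ^ (1 - ε) ≤ 2 * T * 16 ^ (ε / 4) * B := by
      have : c1 * (k : ℝ) ^ (1 - ε) * (k : ℝ) ^ (ε / 2) ≤
          2 * T * 16 ^ (ε / 4) * B * (k : ℝ) ^ (ε / 2) := by linarith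
      exact le_of_mul_le_mul_right this hkε
    have h9 : c2 * (k : ℝ) ^ (1 - ε) ≤ B := by
      rw [hc2, div_mul_eq_mul_div, div_le_iff₀ (by positivity)]
      linarith
    exact (mul_le_mul_of_nonneg_right (min_le_left _ _) hkpow.le).trans h9

/-- the Liouville function -/
lemma liouville_CMSign :
    CMSign (fun n => (-1 : ℤ) ^ (ArithmeticFunction.cardFactors n)) where
  mul := by
    intro a b ha hb
    rw [ArithmeticFunction.cardFactors_mul (by omega) (by omega), pow_add]
  val := by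
    intro a _
    exact neg_one_pow_eq_or ℤ _

lemma liouville_two : (-1 : ℤ) ^ (ArithmeticFunction.cardFactors 2) = -1 := by
  rw [ArithmeticFunction.cardFactors_apply_prime Nat.prime_two, pow_one]

lemma neg_one_pow_eq_neg_one {n : ℕ} : (-1 : ℤ) ^ n = -1 ↔ Odd n := by
  constructor
  · intro h
    by_contra hcon
    rw [Nat.not_odd_iff_even] at hcon
    rw [hcon.neg_one_pow] at h
    norm_num at h
  · intro h
    exact h.neg_one_pow

end Pool.Agent.Work.MP_3a3367_nt
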